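import Mathlib

/-!
# Every nonzero separable Banach space carries a convex-cyclic operator whose square is not

The operator is `ω (2 + D)` with `ω = -1` (real scalars) or `ω = i` (complex scalars) and `D` a nuclear
operator that is diagonal with strictly decreasing eigenvalues along a fundamental biorthogonal sequence.
-/

set_option autoImplicit false

namespace Pool.Agent.Results.MP_8292e8_an.EverySeparableSpace

open Filter Topology

/-- `T` is convex-cyclic: the convex hull of the orbit of some vector is dense. -/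
def ConvexCyclic {𝕜 X : Type*} [RCLike 𝕜] [NormedAddCommGroup X] [NormedSpace 𝕜 X] [NormedSpace ℝ X]
    (T : X →L[𝕜] X) : Prop :=
  ∃ x : X, Dense (convexHull ℝ (Set.range fun n : ℕ => (T ^ n) x))

section

variable {𝕜 X : Type*} [RCLike 𝕜] [NormedAddCommGroup X] [NormedSpace 𝕜 X]

/-- A functional that vanishes on a subspace and is one at a point outside its closure. -/
theorem exists_functional [NormedSpace ℝ X] [IsScalarTower ℝ 𝕜 X] (S : Submodule 𝕜 X) (v : X)
    (hv : v ∉ S.topologicalClosure) :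
    ∃ φ : StrongDual 𝕜 X, φ v = 1 ∧ ∀ x ∈ S, φ x = 0 := by
  obtain ⟨f, u, h1, h2⟩ := RCLike.geometric_hahn_banach_closed_point (𝕜 := 𝕜)
    (s := (S.topologicalClosure : Set X)) (x := v)
    ((S.topologicalClosure.restrictScalars ℝ).convex) S.isClosed_topologicalClosure hv
  have h0 : 0 < u := by simpa using h1 0 (Submodule.zero_mem _)
  have hz : ∀ x ∈ S, f x = 0 := by
    intro x hx
    by_contra hne
    have hx' : x ∈ S.topologicalClosure := S.le_topologicalClosure hx
    have := h1 (((u : 𝕜) * (f x)⁻¹) • x) (Submodule.smul_mem _ _ hx')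
    rw [map_smul, smul_eq_mul, mul_assoc, inv_mul_cancel₀ hne, mul_one, RCLike.ofReal_re] at this
    exact lt_irrefl _ this
  have hfv : f v ≠ 0 := by
    intro h
    rw [h] at h2
    simp only [map_zero] at h2
    linarith
  refine ⟨(f v)⁻¹ • f, ?_, ?_⟩
  · simp [inv_mul_cancel₀ hfv]
  · intro x hx
    simp [hz x hx]

open Classical in
/-- One step of the biorthogonalisation. -/
noncomputable def step (n : ℕ) (prev : Fin n → X × StrongDual 𝕜 X) (y : X) : X × StrongDual 𝕜 X :=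
  if h : ∃ φ : StrongDual 𝕜 X, φ (y - ∑ i, (prev i).2 y • (prev i).1) = 1 ∧ ∀ i, φ (prev i).1 = 0 then
    (y - ∑ i, (prev i).2 y • (prev i).1, h.choose)
  else (0, 0)

/-- The biorthogonal sequence. -/
noncomputable def bio (y : ℕ → X) (n : ℕ) : X × StrongDual 𝕜 X :=
  step n (fun i : Fin n => bio y i) (y n)
termination_by n
decreasing_by exact i.isLt

theorem bio_cases (y : ℕ → X) (n : ℕ) :
    ((bio (𝕜 := 𝕜) y n).1 = y n - ∑ i : Fin n, (bio (𝕜 := 𝕜) y i).2 (y n) • (bio (𝕜 := 𝕜) y i).1 ∧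
      (bio (𝕜 := 𝕜) y n).2 (bio (𝕜 := 𝕜) y n).1 = 1 ∧
      ∀ i : Fin n, (bio (𝕜 := 𝕜) y n).2 (bio (𝕜 := 𝕜) y i).1 = 0) ∨
    (bio (𝕜 := 𝕜) y n = (0, 0) ∧ ¬ ∃ φ : StrongDual 𝕜 X,
      φ (y n - ∑ i : Fin n, (bio (𝕜 := 𝕜) y i).2 (y n) • (bio (𝕜 := 𝕜) y i).1) = 1 ∧
      ∀ i : Fin n, φ (bio (𝕜 := 𝕜) y i).1 = 0) := by
  by_cases h : ∃ φ : StrongDual 𝕜 X,
      φ (y n - ∑ i : Fin n, (bio (𝕜 := 𝕜) y i).2 (y n) • (bio (𝕜 := 𝕜) y i).1) = 1 ∧
      ∀ i : Fin n, φ (bio (𝕜 := 𝕜) y i).1 = 0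
  · left
    have e : bio (𝕜 := 𝕜) y n =
        (y n - ∑ i : Fin n, (bio (𝕜 := 𝕜) y i).2 (y n) • (bio (𝕜 := 𝕜) y i).1, h.choose) := by
      conv_lhs => rw [bio]
      rw [step, dif_pos h]
    rw [e]
    exact ⟨rfl, h.choose_spec.1, h.choose_spec.2⟩
  · right
    refine ⟨?_, h⟩
    conv_lhs => rw [bio]
    rw [step, dif_neg h]

theorem bio_lower (y : ℕ → X) {n i : ℕ} (h : i < n) :
    (bio (𝕜 := 𝕜) y n).2 (bio (𝕜 := 𝕜) y i).1 = 0 := by
  rcases bio_cases (𝕜 := 𝕜) y n with h1 | h1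
  · exact h1.2.2 ⟨i, h⟩
  · rw [h1.1]; simp

theorem bio_diag (y : ℕ → X) (n : ℕ) :
    (bio (𝕜 := 𝕜) y n).2 (bio (𝕜 := 𝕜) y n).1 = 1 ∨ bio (𝕜 := 𝕜) y n = (0, 0) := by
  rcases bio_cases (𝕜 := 𝕜) y n with h1 | h1
  · exact Or.inl h1.2.1
  · exact Or.inr h1.1

theorem bio_upper (y : ℕ → X) (n : ℕ) :
    ∀ i, i < n → (bio (𝕜 := 𝕜) y i).2 (bio (𝕜 := 𝕜) y n).1 = 0 := by
  induction n using Nat.strong_induction_on with
  | _ n ih =>
    intro i hi
    rcases bio_cases (𝕜 := 𝕜) y n with h1 | h1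
    · rw [h1.1, map_sub, map_sum]
      have : ∀ j : Fin n, (bio (𝕜 := 𝕜) y i).2 ((bio (𝕜 := 𝕜) y j).2 (y n) • (bio (𝕜 := 𝕜) y j).1) =
          if j = ⟨i, hi⟩ then (bio (𝕜 := 𝕜) y i).2 (y n) else 0 := by
        intro j
        rw [map_smul, smul_eq_mul]
        split_ifs with hj
        · subst hj
          rcases bio_diag (𝕜 := 𝕜) y i with h | h
          · simp only [h, mul_one]
          · simp [h]
        · have hne : (j : ℕ) ≠ i := fun e => hj (Fin.ext e)
          rcases lt_or_gt_of_ne hne with h | h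
          · rw [bio_lower y h, mul_zero]
          · rw [ih j j.isLt i h, mul_zero]
      rw [Finset.sum_congr rfl fun j _ => this j]
      simp
    · rw [h1.1]; simp

theorem bio_ne (y : ℕ → X) {i n : ℕ} (h : i ≠ n) :
    (bio (𝕜 := 𝕜) y i).2 (bio (𝕜 := 𝕜) y n).1 = 0 := by
  rcases lt_or_gt_of_ne h with h | h
  · exact bio_upper y n i h
  · exact bio_lower y h

theorem bio_mem [NormedSpace ℝ X] [IsScalarTower ℝ 𝕜 X] (y : ℕ → X) (n : ℕ) :
    y n ∈ (Submodule.span 𝕜 (Set.range fun i => (bio (𝕜 := 𝕜) y i).1)).topologicalClosure := by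
  set S := Submodule.span 𝕜 (Set.range fun i => (bio (𝕜 := 𝕜) y i).1) with hS
  have hmem : ∀ i, (bio (𝕜 := 𝕜) y i).1 ∈ S := fun i => Submodule.subset_span ⟨i, rfl⟩
  have hsum : ∑ i : Fin n, (bio (𝕜 := 𝕜) y i).2 (y n) • (bio (𝕜 := 𝕜) y i).1 ∈ S :=
    Submodule.sum_mem _ fun i _ => Submodule.smul_mem _ _ (hmem i)
  rcases bio_cases (𝕜 := 𝕜) y n with h1 | h1
  · apply S.le_topologicalClosure
    have : y n = (bio (𝕜 := 𝕜) y n).1 +
        ∑ i : Fin n, (bio (𝕜 := 𝕜) y i).2 (y n) • (bio (𝕜 := 𝕜) y i).1 := by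
      rw [h1.1]; abel
    rw [this]
    exact Submodule.add_mem _ (hmem n) hsum
  · by_contra hy
    apply h1.2
    have hv : (y n - ∑ i : Fin n, (bio (𝕜 := 𝕜) y i).2 (y n) • (bio (𝕜 := 𝕜) y i).1) ∉
        S.topologicalClosure := by
      intro hv
      apply hy
      have := Submodule.add_mem _ hv (S.le_topologicalClosure hsum)
      simpa using this
    obtain ⟨φ, h2, h3⟩ := exists_functional S _ hv
    exact ⟨φ, h2, fun i => h3 _ (hmem i)⟩


theorem exists_omega (𝕜 : Type*) [RCLike 𝕜] : ∃ ω : 𝕜, ω ^ 4 = 1 ∧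
    (∀ c : 𝕜, c ≠ 0 → ∃ j : ℕ, 0 < RCLike.re (ω ^ j * c)) ∧
    (∀ a : 𝕜, ∃ β : 𝕜, β ≠ 0 ∧ ∀ r : ℝ, 0 < r → ∀ k : ℕ,
      0 ≤ RCLike.re (β * ((ω ^ 2 * (r : 𝕜)) ^ k * a))) := by
  rcases RCLike.I_mul_I (K := 𝕜) with hI | hI
  · -- real scalars
    have hre : ∀ z : 𝕜, z = (RCLike.re z : 𝕜) := by
      intro z
      have := RCLike.re_add_im z
      rw [hI, mul_zero, add_zero] at this
      exact this.symm
    refine ⟨-1, by norm_num, ?_, ?_⟩
    · intro c hc
      have h : RCLike.re c ≠ 0 := by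
        intro h
        apply hc
        rw [hre c, h, RCLike.ofReal_zero]
      rcases lt_or_gt_of_ne h with h | h
      · exact ⟨1, by simpa using h⟩
      · exact ⟨0, by simpa using h⟩
    · intro a
      by_cases ha : a = 0
      · exact ⟨1, one_ne_zero, by intro r _ k; simp [ha]⟩
      · refine ⟨starRingEnd 𝕜 a, by simpa using ha, ?_⟩
        intro r hr k
        have : starRingEnd 𝕜 a * (((-1 : 𝕜) ^ 2 * (r : 𝕜)) ^ k * a) =
            ((r ^ k * ‖a‖ ^ 2 : ℝ) : 𝕜) := by
          have h := RCLike.conj_mul a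
          push_cast
          rw [← h]; ring
        rw [this, RCLike.ofReal_re]
        positivity
  · -- complex scalars
    have hI2 : (RCLike.I : 𝕜) ^ 2 = -1 := by rw [pow_two, hI]
    refine ⟨RCLike.I, ?_, ?_, ?_⟩
    · rw [show (4 : ℕ) = 2 * 2 from rfl, pow_mul, hI2]; norm_num
    · intro c hc
      by_cases h0 : RCLike.re c = 0
      · have h1 : RCLike.im c ≠ 0 := by
          intro h
          apply hc
          exact RCLike.ext (by simpa using h0) (by simpa using h)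
        have hreI : RCLike.re (RCLike.I * c) = - RCLike.im c := by
          rw [RCLike.mul_re]
          simp [RCLike.I_im']
        rcases lt_or_gt_of_ne h1 with h | h
        · exact ⟨1, by rw [pow_one, hreI]; linarith⟩
        · refine ⟨3, ?_⟩
          have : (RCLike.I : 𝕜) ^ 3 * c = -(RCLike.I * c) := by
            rw [show (3 : ℕ) = 2 + 1 from rfl, pow_succ, hI2]; ring
          rw [this, map_neg, hreI]; linarith
      · rcases lt_or_gt_of_ne h0 with h | h
        · refine ⟨2, ?_⟩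
          rw [hI2, neg_one_mul, map_neg]; linarith
        · exact ⟨0, by simpa using h⟩
    · intro a
      by_cases ha : a = 0
      · exact ⟨1, one_ne_zero, by intro r _ k; simp [ha]⟩
      · refine ⟨RCLike.I * starRingEnd 𝕜 a, ?_, ?_⟩
        · intro h
          rcases mul_eq_zero.1 h with h | h
          · rw [h] at hI; norm_num at hI
          · exact ha (by simpa using h)
        · intro r hr k
          have : RCLike.I * starRingEnd 𝕜 a * (((RCLike.I : 𝕜) ^ 2 * (r : 𝕜)) ^ k * a) =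
              (((-r) ^ k * ‖a‖ ^ 2 : ℝ) : 𝕜) * RCLike.I := by
            have h := RCLike.conj_mul a
            rw [hI2]
            push_cast
            rw [← h]; ring
          rw [this, RCLike.re_ofReal_mul, RCLike.I_re, mul_zero]


/-- A sequence `x` with dense span and functionals `φ` that are biorthogonal to it (zero entries allowed). -/
theorem exists_biorthogonal [NormedSpace ℝ X] [IsScalarTower ℝ 𝕜 X] [TopologicalSpace.SeparableSpace X] :
    ∃ (x : ℕ → X) (φ : ℕ → StrongDual 𝕜 X), (∀ i j, i ≠ j → φ i (x j) = 0) ∧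
      (∀ i, φ i (x i) = 1 ∨ (x i = 0 ∧ φ i = 0)) ∧
      (∀ f : StrongDual 𝕜 X, (∀ i, f (x i) = 0) → f = 0) := by
  let y : ℕ → X := TopologicalSpace.denseSeq X
  refine ⟨fun i => (bio (𝕜 := 𝕜) y i).1, fun i => (bio (𝕜 := 𝕜) y i).2, ?_, ?_, ?_⟩
  · intro i j h
    exact bio_ne y h
  · intro i
    rcases bio_diag (𝕜 := 𝕜) y i with h | h
    · exact Or.inl h
    · right; exact ⟨congrArg Prod.fst h, congrArg Prod.snd h⟩
  · intro f hf
    have h1 : (Submodule.span 𝕜 (Set.range fun i => (bio (𝕜 := 𝕜) y i).1)).topologicalClosure ≤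
        LinearMap.ker (f : X →ₗ[𝕜] 𝕜) := by
      apply Submodule.topologicalClosure_minimal
      · rw [Submodule.span_le]
        rintro _ ⟨i, rfl⟩
        exact hf i
      · exact ContinuousLinearMap.isClosed_ker f
    have h2 : ∀ n, f (y n) = 0 := fun n => h1 (bio_mem y n)
    have h3 : (f : X → 𝕜) = fun _ => 0 := by
      apply Continuous.ext_on (TopologicalSpace.denseRange_denseSeq X) f.continuous continuous_const
      rintro _ ⟨n, rfl⟩
      exact h2 n
    ext v
    exact congrFun h3 v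

/-- The limit of the rescaled orbit functionals. -/
theorem tendsto_aux (c : ℕ → ℝ) (μ : ℕ → ℝ) (a : ℕ → 𝕜) (m : ℕ) (hμ : StrictAnti μ) (hpos : ∀ n, 0 < μ n)
    (hs : Summable fun n => ‖(c n : 𝕜) * a n‖) (ha : ∀ n, n < m → a n = 0) :
    Tendsto (fun k : ℕ => ∑' n, ((μ n / μ m : ℝ) : 𝕜) ^ k * ((c n : 𝕜) * a n)) atTop
      (𝓝 ((c m : 𝕜) * a m)) := by
  have hle : ∀ n, m ≤ n → μ n / μ m ≤ 1 := by
    intro n hn
    rw [div_le_one (hpos m)]
    exact hμ.antitone hn
  have key := tendsto_tsum_of_dominated_convergence (𝓕 := atTop)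
    (f := fun (k : ℕ) n => ((μ n / μ m : ℝ) : 𝕜) ^ k * ((c n : 𝕜) * a n))
    (g := fun n => if n = m then (c m : 𝕜) * a m else 0) hs ?_ ?_
  · simpa using key
  · intro n
    rcases lt_trichotomy n m with h | h | h
    · simp [ha n h, h.ne]
    · subst h
      simp [(hpos n).ne']
    · rw [if_neg h.ne']
      have h1 : |μ n / μ m| < 1 := by
        rw [abs_of_pos (div_pos (hpos n) (hpos m)), div_lt_one (hpos m)]
        exact hμ h
      have h2 : Tendsto (fun k : ℕ => ((μ n / μ m : ℝ) : 𝕜) ^ k) atTop (𝓝 0) := by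
        apply tendsto_pow_atTop_nhds_zero_of_norm_lt_one
        rwa [RCLike.norm_ofReal]
      simpa using h2.mul_const ((c n : 𝕜) * a n)
  · refine Filter.Eventually.of_forall fun k n => ?_
    rcases lt_or_ge n m with h | h
    · simp [ha n h]
    · rw [norm_mul, norm_pow, RCLike.norm_ofReal, abs_of_pos (div_pos (hpos n) (hpos m))]
      have : (μ n / μ m) ^ k ≤ 1 := pow_le_one₀ (div_pos (hpos n) (hpos m)).le (hle n h)
      calc (μ n / μ m) ^ k * ‖(c n : 𝕜) * a n‖ ≤ 1 * ‖(c n : 𝕜) * a n‖ := by gcongr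
        _ = _ := one_mul _

/-- A diagonal operator along a biorthogonal sequence with strictly decreasing positive eigenvalues above one. -/
theorem exists_diagonal [CompleteSpace X] (x : ℕ → X) (φ : ℕ → StrongDual 𝕜 X)
    (h1 : ∀ i j, i ≠ j → φ i (x j) = 0) (h2 : ∀ i, φ i (x i) = 1 ∨ (x i = 0 ∧ φ i = 0)) :
    ∃ (T : X →L[𝕜] X) (μ : ℕ → ℝ), StrictAnti μ ∧ (∀ n, 2 < μ n) ∧
      (∀ n, T (x n) = (μ n : 𝕜) • x n) ∧ (∀ n v, φ n (T v) = (μ n : 𝕜) * φ n v) := by
  let M : ℕ → ℝ := fun n => 1 + ∑ i ∈ Finset.range (n + 1), ‖φ i‖ * ‖x i‖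
  have hM1 : ∀ n, 1 ≤ M n := by
    intro n
    have : 0 ≤ ∑ i ∈ Finset.range (n + 1), ‖φ i‖ * ‖x i‖ := Finset.sum_nonneg fun i _ => by positivity
    simp only [M]; linarith
  have hMmono : Monotone M := by
    intro a b hab
    simp only [M]
    have : ∑ i ∈ Finset.range (a + 1), ‖φ i‖ * ‖x i‖ ≤ ∑ i ∈ Finset.range (b + 1), ‖φ i‖ * ‖x i‖ :=
      Finset.sum_le_sum_of_subset_of_nonneg (Finset.range_mono (by omega)) fun i _ _ => by positivity
    linarith
  have hMn : ∀ n, ‖φ n‖ * ‖x n‖ ≤ M n := by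
    intro n
    have : ‖φ n‖ * ‖x n‖ ≤ ∑ i ∈ Finset.range (n + 1), ‖φ i‖ * ‖x i‖ :=
      Finset.single_le_sum (f := fun i => ‖φ i‖ * ‖x i‖) (fun i _ => by positivity) (by simp)
    simp only [M]; linarith
  let ε : ℕ → ℝ := fun n => (1 / 2) ^ n / M n
  have hMpos : ∀ n, 0 < M n := fun n => lt_of_lt_of_le one_pos (hM1 n)
  have hεpos : ∀ n, 0 < ε n := fun n => div_pos (by positivity) (hMpos n)
  have hεanti : StrictAnti ε := by
    apply strictAnti_nat_of_succ_lt
    intro n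
    simp only [ε]
    have a1 : (1 / 2 : ℝ) ^ (n + 1) < (1 / 2) ^ n := by
      rw [pow_succ]; have : (0 : ℝ) < (1 / 2) ^ n := by positivity
      linarith
    have a2 : M n ≤ M (n + 1) := hMmono (Nat.le_succ n)
    calc (1 / 2 : ℝ) ^ (n + 1) / M (n + 1) ≤ (1 / 2) ^ (n + 1) / M n :=
          div_le_div_of_nonneg_left (by positivity) (hMpos n) a2
      _ < (1 / 2) ^ n / M n := div_lt_div_of_pos_right a1 (hMpos n)
  have hbound : ∀ n, ‖((ε n : 𝕜)) • (φ n).smulRight (x n)‖ ≤ (1 / 2) ^ n := by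
    intro n
    rw [norm_smul, RCLike.norm_ofReal, abs_of_pos (hεpos n), ContinuousLinearMap.norm_smulRight_apply]
    simp only [ε]
    rw [div_mul_eq_mul_div, div_le_iff₀ (hMpos n)]
    exact mul_le_mul_of_nonneg_left (hMn n) (by positivity)
  have hsum : Summable fun n => ((ε n : 𝕜)) • (φ n).smulRight (x n) :=
    Summable.of_norm_bounded (g := fun n => (1 / 2 : ℝ) ^ n) summable_geometric_two hbound
  let D : X →L[𝕜] X := ∑' n, ((ε n : 𝕜)) • (φ n).smulRight (x n)
  have hD : ∀ v, HasSum (fun n => ((ε n : 𝕜)) • (φ n v • x n)) (D v) := by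
    intro v
    have := (ContinuousLinearMap.apply 𝕜 X v).hasSum hsum.hasSum
    simpa using this
  have hDx : ∀ n, D (x n) = (ε n : 𝕜) • x n := by
    intro n
    have h3 := hD (x n)
    have h4 : HasSum (fun k => ((ε k : 𝕜)) • (φ k (x n) • x k)) ((ε n : 𝕜) • (φ n (x n) • x n)) := by
      apply hasSum_single n
      intro k hk
      rw [h1 k n hk]; simp
    rw [h3.unique h4]
    rcases h2 n with h | h
    · rw [h, one_smul]
    · rw [h.1]; simp
  have hDφ : ∀ n v, φ n (D v) = (ε n : 𝕜) * φ n v := by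
    intro n v
    have h3 := (φ n).hasSum (hD v)
    have h4 : HasSum (fun k => φ n (((ε k : 𝕜)) • (φ k v • x k)))
        (φ n (((ε n : 𝕜)) • (φ n v • x n))) := by
      apply hasSum_single n
      intro k hk
      rw [map_smul, map_smul, h1 n k (Ne.symm hk)]; simp
    have h5 := h3.unique h4
    rw [h5, map_smul, map_smul]
    rcases h2 n with h | h
    · rw [h]; simp
    · rw [h.2]; simp
  refine ⟨(2 : 𝕜) • ContinuousLinearMap.id 𝕜 X + D, fun n => 2 + ε n, ?_, ?_, ?_, ?_⟩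
  · intro a b hab
    have := hεanti hab
    simp only; linarith
  · intro n
    have := hεpos n
    simp only; linarith
  · intro n
    simp only [add_apply, smul_apply,
      ContinuousLinearMap.id_apply, hDx n]
    push_cast
    rw [add_smul]
  · intro n v
    simp only [add_apply, smul_apply,
      ContinuousLinearMap.id_apply, map_add, map_smul, hDφ n, smul_eq_mul]
    push_cast
    ring


theorem pow_apply_eigen (T : X →L[𝕜] X) (x : X) (c : 𝕜) (h : T x = c • x) (k : ℕ) :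
    (T ^ k) x = c ^ k • x := by
  induction k with
  | zero => simp
  | succ k ih => rw [pow_succ, mul_apply_eq_comp, h, map_smul, ih, smul_smul, pow_succ]; ring_nf

theorem pow_apply_dual (T : X →L[𝕜] X) (φ : StrongDual 𝕜 X) (c : 𝕜) (h : ∀ v, φ (T v) = c * φ v) (k : ℕ)
    (v : X) : φ ((T ^ k) v) = c ^ k * φ v := by
  induction k with
  | zero => simp
  | succ k ih => rw [pow_succ', mul_apply_eq_comp, h, ih]; ring

end

/-- **Every nonzero separable Banach space over `ℝ` or `ℂ` carries a convex-cyclic operator whose square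
is not convex-cyclic.** -/
theorem result (𝕜 : Type*) [RCLike 𝕜] (X : Type*) [NormedAddCommGroup X] [NormedSpace 𝕜 X]
    [NormedSpace ℝ X] [IsScalarTower ℝ 𝕜 X] [CompleteSpace X] [TopologicalSpace.SeparableSpace X]
    [Nontrivial X] :
    ∃ S : X →L[𝕜] X, ConvexCyclic S ∧ ¬ ConvexCyclic (S ^ 2) := by
  obtain ⟨x, φ, h1, h2, h3⟩ := exists_biorthogonal (𝕜 := 𝕜) (X := X)
  obtain ⟨T, μ, hμ, hμ2, hT, hTφ⟩ := exists_diagonal x φ h1 h2
  obtain ⟨ω, hω4, hω1, hω2⟩ := exists_omega 𝕜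
  have hpos : ∀ n, 0 < μ n := fun n => lt_trans two_pos (hμ2 n)
  refine ⟨ω • T, ?_, ?_⟩
  · -- convex-cyclicity
    let c : ℕ → ℝ := fun n => (1 / 2) ^ n / (1 + ‖x n‖)
    have hcpos : ∀ n, 0 < c n := fun n => div_pos (by positivity) (by positivity)
    have hcx : ∀ n, ‖(c n : 𝕜) • x n‖ ≤ (1 / 2) ^ n := by
      intro n
      rw [norm_smul, RCLike.norm_ofReal, abs_of_pos (hcpos n)]
      simp only [c]
      rw [div_mul_eq_mul_div, div_le_iff₀ (by positivity)]
      exact mul_le_mul_of_nonneg_left (by linarith [norm_nonneg (x n)]) (by positivity)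
    have hsum : Summable fun n => (c n : 𝕜) • x n :=
      Summable.of_norm_bounded (g := fun n => (1 / 2 : ℝ) ^ n) summable_geometric_two hcx
    refine ⟨∑' n, (c n : 𝕜) • x n, ?_⟩
    -- values of functionals along the orbit
    have hval : ∀ (f : StrongDual 𝕜 X) (k : ℕ), f (((ω • T) ^ k) (∑' n, (c n : 𝕜) • x n)) =
        ω ^ k * ∑' n, ((μ n : 𝕜)) ^ k * ((c n : 𝕜) * f (x n)) := by
      intro f k
      have h4 : HasSum (fun n => f (((ω • T) ^ k) ((c n : 𝕜) • x n)))
          (f (((ω • T) ^ k) (∑' n, (c n : 𝕜) • x n))) :=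
        f.hasSum (((ω • T) ^ k).hasSum hsum.hasSum)
      rw [← h4.tsum_eq, ← tsum_mul_left]
      congr 1
      ext n
      have h5 : (ω • T) (x n) = (ω * (μ n : 𝕜)) • x n := by
        rw [smul_apply, hT n, smul_smul]
      rw [map_smul, map_smul, pow_apply_eigen (ω • T) (x n) _ h5 k, map_smul]
      simp only [smul_eq_mul, mul_pow]
      ring
    -- unboundedness of the real parts
    have hunb : ∀ (f : StrongDual 𝕜 X), f ≠ 0 → ∀ u : ℝ, ∃ k : ℕ,
        u < RCLike.re (f (((ω • T) ^ k) (∑' n, (c n : 𝕜) • x n))) := by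
      intro f hf u
      have hex : ∃ n, f (x n) ≠ 0 := by
        by_contra hcon
        push Not at hcon
        exact hf (h3 f hcon)
      classical
      let m := Nat.find hex
      have hm : f (x m) ≠ 0 := Nat.find_spec hex
      have hmin : ∀ n, n < m → f (x n) = 0 := by
        intro n hn
        have := Nat.find_min hex hn
        simpa using this
      have hs : Summable fun n => ‖(c n : 𝕜) * f (x n)‖ := by
        refine Summable.of_nonneg_of_le (fun _ => norm_nonneg _) (fun n => ?_)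
          (summable_geometric_two.mul_left ‖f‖)
        calc ‖(c n : 𝕜) * f (x n)‖ = ‖f ((c n : 𝕜) • x n)‖ := by rw [map_smul, smul_eq_mul]
          _ ≤ ‖f‖ * ‖(c n : 𝕜) • x n‖ := f.le_opNorm _
          _ ≤ ‖f‖ * (1 / 2) ^ n := mul_le_mul_of_nonneg_left (hcx n) (norm_nonneg _)
      have hlim := tendsto_aux c μ (fun n => f (x n)) m hμ hpos hs hmin
      have hc0 : (c m : 𝕜) * f (x m) ≠ 0 := by
        apply mul_ne_zero _ hm
        have := (hcpos m).ne'
        exact_mod_cast this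
      obtain ⟨j, hj⟩ := hω1 _ hc0
      set L : 𝕜 := (c m : 𝕜) * f (x m) with hL
      -- along k = 4 q + j
      have hk : Tendsto (fun q : ℕ => 4 * q + j) atTop atTop :=
        tendsto_atTop_mono (fun q => by simp only [id]; omega) tendsto_id
      have hlim2 : Tendsto (fun q : ℕ => RCLike.re (ω ^ j *
          ∑' n, ((μ n / μ m : ℝ) : 𝕜) ^ (4 * q + j) * ((c n : 𝕜) * f (x n)))) atTop
          (𝓝 (RCLike.re (ω ^ j * L))) :=
        (RCLike.continuous_re.tendsto _).comp ((hlim.comp hk).const_mul (ω ^ j))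
      have hgrow : Tendsto (fun q : ℕ => (μ m) ^ (4 * q + j)) atTop atTop :=
        (tendsto_pow_atTop_atTop_of_one_lt (by linarith [hμ2 m])).comp hk
      have hprod := hgrow.atTop_mul_pos hj hlim2
      obtain ⟨q, hq⟩ := (hprod.eventually (eventually_gt_atTop u)).exists
      refine ⟨4 * q + j, ?_⟩
      rw [hval f]
      have e1 : ω ^ (4 * q + j) = ω ^ j := by rw [pow_add, pow_mul, hω4, one_pow, one_mul]
      have e2 : ∑' n, ((μ n : 𝕜)) ^ (4 * q + j) * ((c n : 𝕜) * f (x n)) =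
          ((μ m ^ (4 * q + j) : ℝ) : 𝕜) *
            ∑' n, ((μ n / μ m : ℝ) : 𝕜) ^ (4 * q + j) * ((c n : 𝕜) * f (x n)) := by
        rw [← tsum_mul_left]
        congr 1
        ext n
        have : (μ m : 𝕜) ≠ 0 := by exact_mod_cast (hpos m).ne'
        push_cast
        rw [div_pow]
        field_simp
      rw [e1, e2]
      have e3 : ω ^ j * (((μ m ^ (4 * q + j) : ℝ) : 𝕜) *
            ∑' n, ((μ n / μ m : ℝ) : 𝕜) ^ (4 * q + j) * ((c n : 𝕜) * f (x n))) =
          ((μ m ^ (4 * q + j) : ℝ) : 𝕜) * (ω ^ j *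
            ∑' n, ((μ n / μ m : ℝ) : 𝕜) ^ (4 * q + j) * ((c n : 𝕜) * f (x n))) := by ring
      rw [e3, RCLike.re_ofReal_mul]
      exact hq
    -- Hahn-Banach
    rw [dense_iff_closure_eq]
    by_contra hne
    obtain ⟨z, hz⟩ := (Set.ne_univ_iff_exists_notMem _).1 hne
    obtain ⟨f, u, h4, h5⟩ := RCLike.geometric_hahn_banach_closed_point (𝕜 := 𝕜)
      ((convex_convexHull ℝ _).closure) isClosed_closure hz
    have hmemk : ∀ k, ((ω • T) ^ k) (∑' n, (c n : 𝕜) • x n) ∈ closure (convexHull ℝ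
        (Set.range fun n : ℕ => ((ω • T) ^ n) (∑' n, (c n : 𝕜) • x n))) := fun k =>
      subset_closure (subset_convexHull ℝ _ ⟨k, rfl⟩)
    have hf : f ≠ 0 := by
      rintro rfl
      have := h4 _ (hmemk 0)
      simp only [zero_apply, map_zero] at this h5
      linarith
    obtain ⟨k, hk⟩ := hunb f hf u
    exact absurd (h4 _ (hmemk k)) (not_lt.2 hk.le)
  · -- the square
    rintro ⟨v, hv⟩
    have hexm : ∃ m, φ m (x m) = 1 := by
      by_contra hcon
      push Not at hcon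
      have hx0 : ∀ i, x i = 0 := fun i => ((h2 i).resolve_left (hcon i)).1
      obtain ⟨w, hw⟩ := exists_ne (0 : X)
      obtain ⟨g, hg1, hg2⟩ := exists_dual_vector 𝕜 w (norm_ne_zero_iff.2 hw)
      have hg0 : g = 0 := h3 g fun i => by rw [hx0 i, map_zero]
      rw [hg0, norm_zero] at hg1
      exact zero_ne_one hg1
    obtain ⟨m, hm⟩ := hexm
    obtain ⟨β, hβ, hβ2⟩ := hω2 (φ m v)
    have hφ : ∀ w, φ m (((ω • T) ^ 2) w) = (ω ^ 2 * ((μ m ^ 2 : ℝ) : 𝕜)) * φ m w := by
      intro w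
      rw [pow_apply_dual (ω • T) (φ m) (ω * (μ m : 𝕜)) _ 2 w]
      · push_cast; ring
      · intro w
        rw [smul_apply, map_smul, hTφ, smul_eq_mul, mul_assoc]
    have horb : ∀ k, 0 ≤ RCLike.re (β * φ m ((((ω • T) ^ 2) ^ k) v)) := by
      intro k
      rw [pow_apply_dual ((ω • T) ^ 2) (φ m) _ hφ k v]
      exact hβ2 (μ m ^ 2) (pow_pos (hpos m) 2) k
    have hclosed : IsClosed {w : X | 0 ≤ RCLike.re (β * φ m w)} := by
      apply isClosed_le continuous_const
      exact RCLike.continuous_re.comp (continuous_const.mul (φ m).continuous)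
    have hconv : Convex ℝ {w : X | 0 ≤ RCLike.re (β * φ m w)} := by
      intro w1 hw1 w2 hw2 a b ha hb _
      have e : β * φ m (a • w1 + b • w2) = (a : 𝕜) * (β * φ m w1) + (b : 𝕜) * (β * φ m w2) := by
        rw [map_add, ← algebraMap_smul 𝕜 a w1, ← algebraMap_smul 𝕜 b w2, map_smul, map_smul]
        simp only [smul_eq_mul, RCLike.algebraMap_eq_ofReal]
        ring
      show 0 ≤ RCLike.re (β * φ m (a • w1 + b • w2))
      rw [e, map_add, RCLike.re_ofReal_mul, RCLike.re_ofReal_mul]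
      have hw1' : 0 ≤ RCLike.re (β * φ m w1) := hw1
      have hw2' : 0 ≤ RCLike.re (β * φ m w2) := hw2
      positivity
    have hall : ∀ w : X, 0 ≤ RCLike.re (β * φ m w) := by
      intro w
      have h6 : convexHull ℝ (Set.range fun n : ℕ => (((ω • T) ^ 2) ^ n) v) ⊆
          {w : X | 0 ≤ RCLike.re (β * φ m w)} := by
        apply convexHull_min _ hconv
        rintro _ ⟨k, rfl⟩
        exact horb k
      exact closure_minimal h6 hclosed (hv w)
    have h7 := hall (-(starRingEnd 𝕜 β) • x m)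
    rw [map_smul, hm, smul_eq_mul, mul_one, mul_neg, RCLike.mul_conj, map_neg] at h7
    have h8 : RCLike.re ((‖β‖ : 𝕜) ^ 2) = ‖β‖ ^ 2 := by
      rw [← RCLike.ofReal_pow, RCLike.ofReal_re]
    rw [h8] at h7
    have : 0 < ‖β‖ ^ 2 := by positivity
    linarith

end Pool.Agent.Results.MP_8292e8_an.EverySeparableSpace
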